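import Mathlib
import Pool.Agent.H319R2.LeighBridge

set_option autoImplicit false

/-!
# The structure of single trajectories in a class of Leigh's chain with `Λ_C < 1`

Let `C` be a finite closed communicating class of Leigh's chain of a generalised Collatz map `T`
with `Λ_C < 1`. There are constants `A` and `η < 1` such that every trajectory in `S_C` has at most
`A X ^ η` different elements of absolute value at most `X`, for all `X ≥ 1` (so a cycle of length
`p` contains an integer of absolute value at least `(p / A) ^ (1 / η)`, and a divergent trajectory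
grows at least like `n ^ (1 / η)` along a sequence); the product of the numbers `|m_i| / d` along a
cycle outside `(-N, N)` is `1 + O(N ^ (η - 1))`; and along a divergent trajectory `|T^k x|` divided
by the product of the numbers `|m_i| / d` has a positive limit, with the same bound for the speed of
convergence.

The three parts are the theorems `orbit_sparse`, `cycle_rigid` and `divergent` of the starting file
`Pool/Agent/H319R2/MSparse.lean` (by helper319 and the helpers named in that development), which
had not been handed in.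
-/

namespace Pool.Agent.Results.MP_39d40e_nt.OrbitStructure

open Filter Pool.Agent.H319R2.Leigh

/-- the product of the numbers `|m_i| / d` along the first `k` steps of the trajectory of `x` -/
noncomputable def prodAlong (d : ℕ) (m r : ℤ → ℤ) (k : ℕ) (x : ℤ) : ℝ :=
  ∏ j ∈ Finset.range k, (|(m (((T d m r)^[j] x) % d) : ℝ)| / d)

/-- Let `C` be a finite closed communicating class of Leigh's chain of a generalised Collatz map
`T`, with `Λ_C < 1`. There are `A` and `0 < η < 1` such that, with `R = ∑ |r_i|`:

* every trajectory in `S_C` has at most `A X ^ η` different elements in `[-X, X]`, for all `X ≥ 1`;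
* if `x ∈ S_C` has exact period `p`, `N ≥ 2 R + 1` and the cycle of `x` does not meet `(-N, N)`,
  then the logarithm of the product of the numbers `|m_i| / d` along the cycle is at most
  `A N ^ (η - 1)` in absolute value;
* if `x ∈ S_C` and `|T^k x| → ∞`, then the quotient of `|T^k x|` by the product of the numbers
  `|m_i| / d` along the first `k` steps converges to a positive number `w`, and the logarithms
  of the `k`-th quotient and of `w` differ by at most `A N ^ (η - 1)` whenever `N ≥ 2 R + 1` and
  `|T^j x| ≥ N` for all `j ≥ k`. -/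
theorem result (d : ℕ) (m r b : ℤ → ℤ) (e : ℤ → ℕ) (D : Data d m r b e) (C : Finset (ℤ × ℕ))
    (ρ : ℤ × ℕ → ℝ) (hC : Class d m r e C ρ) (hL : Lam d m C ρ < 1) :
    ∃ A η : ℝ, 0 < η ∧ η < 1 ∧
      (∀ x ∈ S d C, ∀ X : ℝ, 1 ≤ X →
        (Set.ncard {y : ℤ | (∃ n : ℕ, (T d m r)^[n] x = y) ∧ |(y : ℝ)| ≤ X} : ℝ) ≤ A * X ^ η) ∧
      (∀ x ∈ S d C, 0 < Function.minimalPeriod (T d m r) x → ∀ N : ℝ,
        2 * ∑ i ∈ Finset.range d, |(r i : ℝ)| + 1 ≤ N →
        (∀ j : ℕ, N ≤ |(((T d m r)^[j] x : ℤ) : ℝ)|) →
        |Real.log (prodAlong d m r (Function.minimalPeriod (T d m r) x) x)| ≤ A * N ^ (η - 1)) ∧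
      (∀ x ∈ S d C, Tendsto (fun k : ℕ => |(T d m r)^[k] x|) atTop atTop →
        ∃ w : ℝ, 0 < w ∧
          Tendsto (fun k : ℕ => |(((T d m r)^[k] x : ℤ) : ℝ)| / prodAlong d m r k x) atTop
            (nhds w) ∧
          ∀ (k : ℕ) (N : ℝ), 2 * ∑ i ∈ Finset.range d, |(r i : ℝ)| + 1 ≤ N →
            (∀ j : ℕ, k ≤ j → N ≤ |(((T d m r)^[j] x : ℤ) : ℝ)|) →
            |Real.log w - Real.log (|(((T d m r)^[k] x : ℤ) : ℝ)| / prodAlong d m r k x)| ≤
              A * N ^ (η - 1)) := by
  obtain ⟨hinv, η, hη0, hη1, hsm⟩ := small D hC hL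
  obtain ⟨A1, hA1, h1⟩ := (gm D).orbit_sparse (S d C) hinv η hη0 hsm
  obtain ⟨A2, hA2, h2⟩ := (gm D).cycle_rigid (S d C) hinv η hη0 hη1 hsm
  obtain ⟨A3, h3⟩ := (gm D).divergent (S d C) hinv η hη0 hη1 hsm
  have e1 : ∀ k x, prodAlong d m r k x = (gm D).prod k x := fun k x => rfl
  have hR : (gm D).R = ∑ i ∈ Finset.range d, |(r i : ℝ)| := rfl
  have hR0 := (gm D).R_nonneg
  rw [hR] at hR0
  set A := max A1 (max A2 A3) with hA
  have hle1 : A1 ≤ A := le_max_left _ _
  have hle2 : A2 ≤ A := (le_max_left _ _).trans (le_max_right _ _)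
  have hle3 : A3 ≤ A := (le_max_right _ _).trans (le_max_right _ _)
  refine ⟨A, η, hη0, hη1, ?_, ?_, ?_⟩
  · intro x hx X hX
    apply ncard_le (A := {y : ℤ | ∃ n : ℕ, (T d m r)^[n] x = y})
    intro F hF
    refine (h1 x hx X hX F (fun y hy => hF y hy)).trans ?_
    exact mul_le_mul_of_nonneg_right hle1 (Real.rpow_nonneg (by linarith) _)
  · intro x hx hp N hN hj
    have h := h2 x hx _ rfl hp N (by rw [hR]; exact hN) hj
    rw [e1, (gm D).log_prod]
    refine h.trans ?_
    exact mul_le_mul_of_nonneg_right hle2 (Real.rpow_nonneg (by linarith) _)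
  · intro x hx hdiv
    obtain ⟨w, hw, hlim, hrate⟩ := h3 x hx hdiv
    refine ⟨w, hw, hlim, ?_⟩
    intro k N hN hj
    refine (hrate k N (by rw [hR]; exact hN) hj).trans ?_
    exact mul_le_mul_of_nonneg_right hle3 (Real.rpow_nonneg (by linarith) _)

end Pool.Agent.Results.MP_39d40e_nt.OrbitStructure
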